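import Pool.Agent.Run7.h16.MQ.Core

/-!
# Extensions of Galois groups by universal kernels: realization and small core-free subgroups
-/

set_option autoImplicit false

namespace Run7.h16.MQ

open Nfff32c05 Pool.Agent.TH444.ML
open Pool.Agent.H391R2 (Wr)
open Pool.Agent.H391R2.T4 (finite_wr hilb_numberField)
open Pool.Agent.N600.UK (Univ)

/-- The group `H` has at least two elements and a small core-free subgroup. -/
structure Data (H : Type) [Group H] : Prop where
  finite : Finite H
  two : 2 ≤ Nat.card H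
  core : ∃ U : Subgroup H, U.normalCore = ⊥ ∧ 8 * U.index * (U.index + 1) ≤ Nat.card H

theorem univ_data {T : Type} [Group T] (hT : Univ T) (U : Subgroup T) (hU : U.normalCore = ⊥)
    {X : Type} [Group X] (N : Subgroup X) [N.Normal] (hN : Nonempty (N ≃* T))
    (hfin : Finite (X ⧸ N))
    (hc : 8 * U.index * (U.index * Nat.card (X ⧸ N) + 1) ≤ Nat.card T) :
    Data X ∧ ∀ (K : Type) [Field K] [NumberField K], IsRealizable K X ↔ IsRealizable K (X ⧸ N) := by
  obtain ⟨e⟩ := hN
  have hfT : Finite T := hT.main.1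
  have hfN : Finite N := Finite.of_equiv _ e.symm.toEquiv
  have hfX : Finite X := Finite.of_subgroup_quotient N
  obtain ⟨h1, h2⟩ := small_ext N e U hU hc
  exact ⟨⟨hfX, h1, h2⟩, fun K _ _ => hT.real_hilb K (hilb_numberField K) X N ⟨e⟩ hfin⟩

section prod

variable {I : Type} [Fintype I] [Nonempty I] {G : I → Type} [∀ i, Group (G i)] [∀ i, Finite (G i)]
  [∀ i, Nontrivial (G i)] {n : I → ℕ} (hZ : ∀ i, Subgroup.center (G i) = ⊥)
  (hn : ∀ i, ((3 * Nat.card (G i) + 2).factorial) ^ 3 ≤ n i)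
  (X : Type) [Group X] (N : Subgroup X) [N.Normal]
  (hN : Nonempty (N ≃* ∀ i, Wr (G i) (n i))) (hfin : Finite (X ⧸ N))
  (hq : Nat.card (X ⧸ N) ≤ ∏ i, (Nat.card (G i) ^ (n i - 2) * (n i - 3).factorial))

include hn hN hfin hq in
omit [∀ i, Nontrivial (G i)] in
theorem prod_data : Data X := by
  obtain ⟨e⟩ := hN
  have hf : ∀ i, Finite (Wr (G i) (n i)) := fun i => finite_wr (G i) (n i)
  have hfN : Finite N := Finite.of_equiv _ e.symm.toEquiv
  have hfX : Finite X := Finite.of_subgroup_quotient N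
  obtain ⟨U, hU, hc⟩ := prod_small G n (fun i => (big _ Nat.card_pos).trans (hn i))
    (Nat.card (X ⧸ N)) Nat.card_pos hq
  obtain ⟨h1, h2⟩ := small_ext N e U hU hc
  exact ⟨hfX, h1, h2⟩

end prod

section cls

open Pool.Agent.TH444.TW (Cls)

theorem cls_equiv (K : Type) [Field K] {W W' : Type} [Group W] [Group W'] (e : W' ≃* W) :
    Cls K e.toMonoidHom := by
  have h1 : ∀ x : W', e.toMonoidHom x = 1 → x = 1 := fun x hx =>
    (MulEquiv.map_eq_one_iff e).1 hx
  refine Cls.abelian _ e.symm.toMonoidHom (fun w => e.apply_symm_apply w) ?_ ?_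
  · have : Subsingleton e.toMonoidHom.ker := ⟨fun x y => Subtype.ext
      ((h1 _ x.2).trans (h1 _ y.2).symm)⟩
    infer_instance
  · intro x y hx hy
    rw [h1 x hx, h1 y hy]

theorem cls_real (K : Type) [Field K] [NumberField K] {Γ H : Type} [Group Γ] [Finite Γ] [Group H]
    [Finite H] (p : H →* Γ) (hp : Cls K p) (hΓ : IsRealizable K Γ) : IsRealizable K H := by
  obtain ⟨⟨L, i1, i2, i3, e⟩⟩ := hΓ
  have hfin : Finite (L ≃ₐ[K] L) := Finite.of_equiv Γ e.toEquiv
  have hfd : FiniteDimensional K L := fd_of_finite_aut K L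
  exact (real_iff_gal K H).2 (gal_nonempty K (AlgebraicClosure K) L H (e.toMonoidHom.comp p)
    (Cls.comp _ _ (cls_equiv K e) hp))

end cls

end Run7.h16.MQ
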