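import Mathlib
import Pool.Agent.Run7.h16.MQ.Main

/-!
# The statements on Malle's conjecture for `C₂ ≀ X` and the proofs from the data
-/

set_option autoImplicit false

open Filter
open Nfff32c05 (IsRealizable)
open Pool.Agent.H391R2 (Wr)
open Pool.Agent.N600.UK (Univ)
open Pool.Agent.TH444.TW (Cls)
open Run7.h16.MQ (Data)

namespace Run7.h16.MQ.A

/-- `Γ` is a Galois group over `K`. -/
def IsGaloisGroupOver (K Γ : Type) [Field K] [Group Γ] : Prop :=
  ∃ (L : Type) (_ : Field L) (_ : Algebra K L), IsGalois K L ∧ Nonempty (Γ ≃* (L ≃ₐ[K] L))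

/-- `G ≤ S_d` is, up to a bijection `f` of `{1, ..., d}` with `H × {0, 1}`, the wreath product
`C₂ ≀ H`: it consists of all permutations `π` for which there is `h ∈ H` such that `π` maps the block
`{x} × {0, 1}` to the block `{h x} × {0, 1}`, for all `x ∈ H`. -/
def IsC2Wreath (H : Type) [Group H] {d : ℕ} (G : Subgroup (Equiv.Perm (Fin d))) : Prop :=
  ∃ f : Fin d ≃ H × Bool, ∀ π : Equiv.Perm (Fin d), π ∈ G ↔ ∃ h : H, ∀ i, (f (π i)).1 = h * (f i).1

/-- The fields `L` between `K` and its algebraic closure, of degree `d` over `K`, whose Galois group,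
acting on the embeddings, is `G` (up to numbering), and whose relative discriminant has norm at most
`B` (that is, `|d_L| ≤ B |d_K| ^ d`). -/
def Ext (K : Type) [Field K] [NumberField K] (d : ℕ) (G : Subgroup (Equiv.Perm (Fin d)))
    (B : ℝ) : Set (IntermediateField K (AlgebraicClosure K)) :=
  {L | Module.finrank K L = d ∧
    (∃ e : (L →ₐ[K] AlgebraicClosure K) ≃ Fin d, ∀ π : Equiv.Perm (Fin d),
      π ∈ G ↔ ∃ σ : AlgebraicClosure K ≃ₐ[K] AlgebraicClosure K,
        ∀ φ : L →ₐ[K] AlgebraicClosure K, e (σ.toAlgHom.comp φ) = π (e φ)) ∧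
    ∃ h : NumberField L,
      ((|@NumberField.discr L _ h| : ℤ) : ℝ) ≤ B * ((|NumberField.discr K| : ℤ) : ℝ) ^ d}

/-- `N(K, G; B)`: the number of these fields up to `K`-isomorphism. -/
noncomputable def N (K : Type) [Field K] [NumberField K] (d : ℕ)
    (G : Subgroup (Equiv.Perm (Fin d))) (B : ℝ) : ℕ :=
  Nat.card (Quot fun L L' : Ext K d G B => Nonempty (L.1 ≃ₐ[K] L'.1))

/-- The conclusion of Malle's conjecture for `G`, over all number fields: there is `a > 0` such that
for every number field `K` there are `c > 0` and `b ≥ 1` with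
`N(K, G; B) ~ c B ^ a (log B) ^ (b - 1)`. -/
def Malle (d : ℕ) (G : Subgroup (Equiv.Perm (Fin d))) : Prop :=
  ∃ a : ℝ, 0 < a ∧ ∀ (K : Type) [Field K] [NumberField K], ∃ (c : ℝ) (b : ℕ), 0 < c ∧ 1 ≤ b ∧
    Tendsto (fun B : ℝ => (N K d G B : ℝ) / (B ^ a * Real.log B ^ (b - 1))) atTop (nhds c)

/-- The group `C₂ ≀ H` exists, and is transitive. -/
def GroupExists (H : Type) [Group H] : Prop := ∃ (d : ℕ) (G : Subgroup (Equiv.Perm (Fin d))),
  d = 2 * Nat.card H ∧ IsC2Wreath H G ∧ ∀ i j : Fin d, ∃ g ∈ G, g i = j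

/-- Over `K` the asymptotic formula `N(K, G; B) ~ c B` holds for all subgroups of symmetric groups of
the form `G = C₂ ≀ H`, `H` in its regular action. -/
def MalleOrderTwo (K : Type) [Field K] [NumberField K] (H : Type) [Group H] : Prop :=
  ∀ (d : ℕ) (G : Subgroup (Equiv.Perm (Fin d))), IsC2Wreath H G → ∃ c : ℝ, 0 < c ∧
    Tendsto (fun B : ℝ => (N K d G B : ℝ) / B) atTop (nhds c)

/-- There is an extension of `K` with the Galois group `C₂ ≀ H`. -/
def HasExtension (K : Type) [Field K] [NumberField K] (H : Type) [Group H] : Prop :=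
  ∃ (d : ℕ) (G : Subgroup (Equiv.Perm (Fin d))) (B : ℝ), IsC2Wreath H G ∧ (Ext K d G B).Nonempty

/-- The conclusion of Malle's conjecture for all subgroups of symmetric groups of the form
`G = C₂ ≀ H`. -/
def MalleAll (H : Type) [Group H] : Prop :=
  ∀ (d : ℕ) (G : Subgroup (Equiv.Perm (Fin d))), IsC2Wreath H G → Malle d G

/-- Over every number field `K` the following are equivalent: `Y` is a Galois group over `K`; there is
an extension of `K` with the Galois group `C₂ ≀ X`; the number of the extensions with the Galois group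
`C₂ ≀ X` is asymptotic to `c B`, `c > 0`. -/
def Criterion (X Y : Type) [Group X] [Group Y] : Prop :=
  ∀ (K : Type) [Field K] [NumberField K],
    [IsGaloisGroupOver K Y, HasExtension K X, MalleOrderTwo K X].TFAE

/-- `π` is a Frattini cover: it is surjective and its kernel is contained in the Frattini subgroup,
the intersection of the maximal subgroups. -/
def FrattiniCover {Q Y : Type} [Group Q] [Group Y] (π : Q →* Y) : Prop :=
  Function.Surjective π ∧ π.ker ≤ frattini Q

/-- There is a Frattini cover `Q` of `Y` such that Malle's conjecture for `C₂ ≀ X` holds over the number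
fields over which `Q` is a Galois group. -/
def CoverTheorem (X Y : Type) [Group X] [Group Y] : Prop :=
  ∃ (Q : Type) (_ : Group Q) (_ : Finite Q) (π : Q →* Y), FrattiniCover π ∧
    (∀ (K : Type) [Field K] [NumberField K], IsGaloisGroupOver K Q → MalleOrderTwo K X) ∧
    (Group.IsSolvable Y → Group.IsSolvable Q)

/-- All finite solvable groups are Galois groups over `K`: this is the theorem of Shafarevich if `K` is
a number field. -/
def SolvableRealizable (K : Type) [Field K] : Prop :=
  ∀ (Q : Type) [Group Q] [Finite Q], Group.IsSolvable Q → IsGaloisGroupOver K Q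

theorem galois_iff (K Γ : Type) [Field K] [Group Γ] : IsGaloisGroupOver K Γ ↔ IsRealizable K Γ :=
  ⟨fun ⟨L, i1, i2, i3, ⟨e⟩⟩ => ⟨⟨⟨L, i1, i2, i3, e⟩⟩⟩,
    fun ⟨⟨r⟩⟩ => ⟨r.L, r.to_field, r.to_algebra, r.to_isGalois, ⟨r.iso⟩⟩⟩

/-- The group `C₂ ≀ H` exists, and is transitive. -/
theorem exists_group (H : Type) [Group H] [Finite H] : GroupExists H := by
  have hcard : Nat.card (H × Bool) = 2 * Nat.card H := by
    rw [Nat.card_prod, mul_comm]
    simp
  let f : Fin (2 * Nat.card H) ≃ H × Bool := (Finite.equivFinOfCardEq hcard).symm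
  let G : Subgroup (Equiv.Perm (Fin (2 * Nat.card H))) :=
    { carrier := {π | ∃ h : H, ∀ i, (f (π i)).1 = h * (f i).1}
      one_mem' := ⟨1, fun i => by simp⟩
      mul_mem' := by
        rintro π ρ ⟨h, hh⟩ ⟨h', hh'⟩
        refine ⟨h * h', fun i => ?_⟩
        rw [Equiv.Perm.mul_apply, hh, hh', mul_assoc]
      inv_mem' := by
        rintro π ⟨h, hh⟩
        refine ⟨h⁻¹, fun i => ?_⟩
        have h1 := hh (π⁻¹ i)
        rw [show π (π⁻¹ i) = i from π.apply_symm_apply i] at h1
        rw [h1, inv_mul_cancel_left] }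
  refine ⟨2 * Nat.card H, G, rfl, ⟨f, fun π => Iff.rfl⟩, fun i j => ?_⟩
  let t : Equiv.Perm (H × Bool) :=
    (Equiv.mulLeft ((f j).1 * (f i).1⁻¹)).prodCongr (Equiv.swap (f i).2 (f j).2)
  refine ⟨f.trans (t.trans f.symm), ⟨(f j).1 * (f i).1⁻¹, fun x => ?_⟩, ?_⟩
  · simp [t]
  · change f.symm (t (f i)) = j
    rw [Equiv.symm_apply_eq]
    exact Prod.ext (by simp [t]) (by simp [t])

theorem malle_of_real {X : Type} [Group X] (h : Data X) (K : Type) [Field K] [NumberField K]
    (hX : IsRealizable K X) : MalleOrderTwo K X := by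
  have hf := h.finite
  obtain ⟨U, hU, hc⟩ := h.core
  intro d G hG
  exact Pool.Agent.TH444.ML.asymp_iso Pool.Agent.TH444.ML.rest K X h.two U hU hc
    ((Run7.h16.MQ.real_iff_gal K X).1 hX) G hG

theorem ext_of_malle {X : Type} [Group X] [Finite X] (K : Type) [Field K] [NumberField K]
    (h : MalleOrderTwo K X) : HasExtension K X := by
  obtain ⟨d, G, -, hG, -⟩ := exists_group X
  obtain ⟨c, hc, hlim⟩ := h d G hG
  by_contra hno
  have h0 : ∀ B : ℝ, N K d G B = 0 := by
    intro B
    have h1 : IsEmpty (Ext K d G B) := ⟨fun L => hno ⟨d, G, B, hG, L.1, L.2⟩⟩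
    have h2 : IsEmpty (Quot fun L L' : Ext K d G B => Nonempty (L.1 ≃ₐ[K] L'.1)) :=
      ⟨fun q => by
        obtain ⟨L, -⟩ := Quot.exists_rep q
        exact h1.elim L⟩
    exact Nat.card_of_isEmpty
  simp only [h0, Nat.cast_zero, zero_div] at hlim
  exact hc.ne (tendsto_nhds_unique tendsto_const_nhds hlim)

theorem real_of_ext {X : Type} [Group X] [Finite X] (K : Type) [Field K] [NumberField K]
    (h : HasExtension K X) : IsRealizable K X := by
  obtain ⟨d, G, B, hG, L, hL, he, -⟩ := h
  exact Run7.h16.MQ.gal_of_ext hG L hL he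

theorem criterion_of {X Y : Type} [Group X] [Group Y] (h : Data X)
    (hr : ∀ (K : Type) [Field K] [NumberField K], IsRealizable K X ↔ IsRealizable K Y) :
    Criterion X Y := by
  have hf := h.finite
  intro K _ _
  tfae_have 1 → 3 := fun hY => malle_of_real h K ((hr K).2 ((galois_iff K Y).1 hY))
  tfae_have 3 → 2 := fun hM => ext_of_malle K hM
  tfae_have 2 → 1 := fun hE => (galois_iff K Y).2 ((hr K).1 (real_of_ext K hE))
  tfae_finish

theorem malle_all {X : Type} [Group X]
    (h : ∀ (K : Type) [Field K] [NumberField K], MalleOrderTwo K X) : MalleAll X := by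
  intro d G hG
  refine ⟨1, one_pos, fun K _ _ => ?_⟩
  obtain ⟨c, hc0, hlim⟩ := h K d G hG
  refine ⟨c, 1, hc0, le_rfl, ?_⟩
  simpa using hlim

end Run7.h16.MQ.A
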