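import Mathlib
import Pool.Agent.Run7.h16.MQ.Main

/-!
# The statements on Malle's conjecture for `C₂ ≀ X` and the proofs from the data
-/

set_option autoImplicit false

open Filter
open Nfff32c05 (IsRealizable)
open Pool.Agent.H391R2 (Wr)
open Pool.Agent.N600.UK (Univ)
open Pool.Agent.TH444.TW (Cls)
open Run7.h16.MQ (Data)

namespace Run7.h16.MQ.B

/-- `Γ` is a Galois group over `K`. -/
def IsGaloisGroupOver (K Γ : Type) [Field K] [Group Γ] : Prop :=
  ∃ (L : Type) (_ : Field L) (_ : Algebra K L), IsGalois K L ∧ Nonempty (Γ ≃* (L ≃ₐ[K] L))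

/-- `G ≤ S_d` is, up to a bijection `f` of `{1, ..., d}` with `H × {0, 1}`, the wreath product
`C₂ ≀ H`: it consists of all permutations `π` for which there is `h ∈ H` such that `π` maps the block
`{x} × {0, 1}` to the block `{h x} × {0, 1}`, for all `x ∈ H`. -/
def IsC2Wreath (H : Type) [Group H] {d : ℕ} (G : Subgroup (Equiv.Perm (Fin d))) : Prop :=
  ∃ f : Fin d ≃ H × Bool, ∀ π : Equiv.Perm (Fin d), π ∈ G ↔ ∃ h : H, ∀ i, (f (π i)).1 = h * (f i).1

/-- The index of a permutation: `d` minus the number of its cycles, fixed points included. -/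
def ind {d : ℕ} (g : Equiv.Perm (Fin d)) : ℕ := g.cycleType.sum - Multiset.card g.cycleType

/-- `a(G) = 1 / min ind(g)`, the minimum over the `g ≠ 1` in `G`. -/
noncomputable def a {d : ℕ} (G : Subgroup (Equiv.Perm (Fin d))) : ℝ :=
  1 / (sInf {j : ℕ | ∃ g ∈ G, g ≠ 1 ∧ j = ind g} : ℕ)

/-- `N_{d,K}(X; G)`: the number of fields `L` between `K` and its algebraic closure, of degree `d`
over `K`, whose Galois group, acting on the embeddings, is `G` (up to numbering), and whose relative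
discriminant has norm at most `X` (that is, `|d_L| ≤ X |d_K| ^ d`). -/
noncomputable def N (K : Type) [Field K] [NumberField K] (d : ℕ)
    (G : Subgroup (Equiv.Perm (Fin d))) (X : ℝ) : ℕ :=
  Set.ncard {L : IntermediateField K (AlgebraicClosure K) |
    Module.finrank K L = d ∧
    (∃ e : (L →ₐ[K] AlgebraicClosure K) ≃ Fin d, ∀ π : Equiv.Perm (Fin d),
      π ∈ G ↔ ∃ σ : AlgebraicClosure K ≃ₐ[K] AlgebraicClosure K,
        ∀ φ : L →ₐ[K] AlgebraicClosure K, e (σ.toAlgHom.comp φ) = π (e φ)) ∧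
    ∃ h : NumberField L,
      ((|@NumberField.discr L _ h| : ℤ) : ℝ) ≤ X * ((|NumberField.discr K| : ℤ) : ℝ) ^ d}

/-- Malle's conjecture for `(K, G)`: the asymptotic formula `N_{d,K}(X; G) ~ c X ^ a(G)` (so
`b(K, G) = 1`), and the inequalities of the weak form. -/
def Malle (K : Type) [Field K] [NumberField K] (d : ℕ) (G : Subgroup (Equiv.Perm (Fin d))) :
    Prop :=
  (∃ c : ℝ, 0 < c ∧ Tendsto (fun X : ℝ => (N K d G X : ℝ) / X ^ a G) atTop (nhds c)) ∧
  (∃ c₁ : ℝ, 0 < c₁ ∧ ∃ X₀ : ℝ, ∀ X : ℝ, X₀ ≤ X → c₁ * X ^ a G ≤ N K d G X) ∧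
  (∀ ε : ℝ, 0 < ε → ∃ c₂ : ℝ, 0 < c₂ ∧ ∃ X₀ : ℝ, ∀ X : ℝ, X₀ ≤ X →
    (N K d G X : ℝ) < c₂ * X ^ (a G + ε))

/-- The group `C₂ ≀ H` exists, and is transitive. -/
def GroupExists (H : Type) [Group H] : Prop := ∃ (d : ℕ) (G : Subgroup (Equiv.Perm (Fin d))),
  d = 2 * Nat.card H ∧ IsC2Wreath H G ∧ ∀ i j : Fin d, ∃ g ∈ G, g i = j

/-- Malle's conjecture over `K` for all subgroups of symmetric groups of the form `C₂ ≀ H`, `H` in
its regular action. -/
def MalleOrderTwo (K : Type) [Field K] [NumberField K] (H : Type) [Group H] : Prop :=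
  ∀ (d : ℕ) (G : Subgroup (Equiv.Perm (Fin d))), IsC2Wreath H G → Malle K d G

/-- There is an extension `L` of `K` with the Galois group `C₂ ≀ H`. -/
def HasExtension (K : Type) [Field K] [NumberField K] (H : Type) [Group H] : Prop :=
  ∃ (d : ℕ) (G : Subgroup (Equiv.Perm (Fin d))) (L : IntermediateField K (AlgebraicClosure K)),
    IsC2Wreath H G ∧ Module.finrank K L = d ∧
    ∃ e : (L →ₐ[K] AlgebraicClosure K) ≃ Fin d, ∀ π : Equiv.Perm (Fin d),
      π ∈ G ↔ ∃ σ : AlgebraicClosure K ≃ₐ[K] AlgebraicClosure K,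
        ∀ φ : L →ₐ[K] AlgebraicClosure K, e (σ.toAlgHom.comp φ) = π (e φ)

/-- Over every number field `K` the following are equivalent: `Y` is a Galois group over `K`; there is
an extension of `K` with the Galois group `C₂ ≀ X`; Malle's conjecture (the asymptotic formula and the
weak form) holds for `K` and `C₂ ≀ X`. -/
def Criterion (X Y : Type) [Group X] [Group Y] : Prop :=
  ∀ (K : Type) [Field K] [NumberField K],
    [IsGaloisGroupOver K Y, HasExtension K X, MalleOrderTwo K X].TFAE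

/-- `π` is a Frattini cover: it is surjective and its kernel is contained in the Frattini subgroup,
the intersection of the maximal subgroups. -/
def FrattiniCover {Q Y : Type} [Group Q] [Group Y] (π : Q →* Y) : Prop :=
  Function.Surjective π ∧ π.ker ≤ frattini Q

/-- There is a Frattini cover `Q` of `Y` such that Malle's conjecture for `C₂ ≀ X` holds over the number
fields over which `Q` is a Galois group. -/
def CoverTheorem (X Y : Type) [Group X] [Group Y] : Prop :=
  ∃ (Q : Type) (_ : Group Q) (_ : Finite Q) (π : Q →* Y), FrattiniCover π ∧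
    (∀ (K : Type) [Field K] [NumberField K], IsGaloisGroupOver K Q → MalleOrderTwo K X) ∧
    (Group.IsSolvable Y → Group.IsSolvable Q)

/-- All finite solvable groups are Galois groups over `K`: this is the theorem of Shafarevich if `K` is
a number field. -/
def SolvableRealizable (K : Type) [Field K] : Prop :=
  ∀ (Q : Type) [Group Q] [Finite Q], Group.IsSolvable Q → IsGaloisGroupOver K Q

theorem galois_iff (K Γ : Type) [Field K] [Group Γ] : IsGaloisGroupOver K Γ ↔ IsRealizable K Γ :=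
  ⟨fun ⟨L, i1, i2, i3, ⟨e⟩⟩ => ⟨⟨⟨L, i1, i2, i3, e⟩⟩⟩,
    fun ⟨⟨r⟩⟩ => ⟨r.L, r.to_field, r.to_algebra, r.to_isGalois, ⟨r.iso⟩⟩⟩

/-- The group `C₂ ≀ H` exists, and is transitive. -/
theorem exists_group (H : Type) [Group H] [Finite H] : GroupExists H := by
  have hcard : Nat.card (H × Bool) = 2 * Nat.card H := by
    rw [Nat.card_prod, mul_comm]
    simp
  let f : Fin (2 * Nat.card H) ≃ H × Bool := (Finite.equivFinOfCardEq hcard).symm
  let G : Subgroup (Equiv.Perm (Fin (2 * Nat.card H))) :=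
    { carrier := {π | ∃ h : H, ∀ i, (f (π i)).1 = h * (f i).1}
      one_mem' := ⟨1, fun i => by simp⟩
      mul_mem' := by
        rintro π ρ ⟨h, hh⟩ ⟨h', hh'⟩
        refine ⟨h * h', fun i => ?_⟩
        rw [Equiv.Perm.mul_apply, hh, hh', mul_assoc]
      inv_mem' := by
        rintro π ⟨h, hh⟩
        refine ⟨h⁻¹, fun i => ?_⟩
        have h1 := hh (π⁻¹ i)
        rw [show π (π⁻¹ i) = i from π.apply_symm_apply i] at h1
        rw [h1, inv_mul_cancel_left] }
  refine ⟨2 * Nat.card H, G, rfl, ⟨f, fun π => Iff.rfl⟩, fun i j => ?_⟩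
  let t : Equiv.Perm (H × Bool) :=
    (Equiv.mulLeft ((f j).1 * (f i).1⁻¹)).prodCongr (Equiv.swap (f i).2 (f j).2)
  refine ⟨f.trans (t.trans f.symm), ⟨(f j).1 * (f i).1⁻¹, fun x => ?_⟩, ?_⟩
  · simp [t]
  · change f.symm (t (f i)) = j
    rw [Equiv.symm_apply_eq]
    exact Prod.ext (by simp [t]) (by simp [t])

theorem a_eq {H : Type} [Group H] [Finite H] {d : ℕ} {G : Subgroup (Equiv.Perm (Fin d))}
    (hG : IsC2Wreath H G) : a G = 1 := by
  have h := Pool.Agent.TH444.ML.least_ind (H := H) hG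
  have h2 : sInf {j : ℕ | ∃ g ∈ G, g ≠ 1 ∧ j = ind g} = 1 := h.csInf_eq
  unfold a
  rw [h2]
  simp

theorem malle_of_real {X : Type} [Group X] (h : Data X) (K : Type) [Field K] [NumberField K]
    (hX : IsRealizable K X) : MalleOrderTwo K X := by
  have hf := h.finite
  obtain ⟨U, hU, hc⟩ := h.core
  intro d G hG
  obtain ⟨-, c, hc0, hlim⟩ := Pool.Agent.TH444.ML.asymp Pool.Agent.TH444.ML.rest K X h.two U hU hc
    ((Run7.h16.MQ.real_iff_gal K X).1 hX) G hG
  have ha := a_eq hG
  unfold Malle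
  rw [ha]
  have hlim' : Tendsto (fun X : ℝ => (N K d G X : ℝ) / X) atTop (nhds c) := hlim
  refine ⟨⟨c, hc0, by simpa using hlim'⟩, ⟨c / 2, by positivity, ?_⟩, ?_⟩
  · have h := (hlim'.eventually (lt_mem_nhds (by linarith : c / 2 < c))).and
      (eventually_gt_atTop (0 : ℝ))
    obtain ⟨X₀, hX₀⟩ := eventually_atTop.1 h
    refine ⟨X₀, fun X hX => ?_⟩
    obtain ⟨h3, h4⟩ := hX₀ X hX
    rw [lt_div_iff₀ h4] at h3
    rw [Real.rpow_one]
    exact h3.le
  · intro ε hε
    refine ⟨2 * c, by positivity, ?_⟩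
    have h := (hlim'.eventually (gt_mem_nhds (by linarith : c < 2 * c))).and
      (eventually_ge_atTop (1 : ℝ))
    obtain ⟨X₀, hX₀⟩ := eventually_atTop.1 h
    refine ⟨X₀, fun X hX => ?_⟩
    obtain ⟨h3, h4⟩ := hX₀ X hX
    have h5 : (0 : ℝ) < X := by linarith
    rw [div_lt_iff₀ h5] at h3
    refine h3.trans_le ?_
    apply mul_le_mul_of_nonneg_left _ (by positivity)
    calc X = X ^ (1 : ℝ) := (Real.rpow_one X).symm
      _ ≤ X ^ (1 + ε) := Real.rpow_le_rpow_of_exponent_le h4 (by linarith)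

theorem ext_of_malle {X : Type} [Group X] [Finite X] (K : Type) [Field K] [NumberField K]
    (h : MalleOrderTwo K X) : HasExtension K X := by
  obtain ⟨d, G, -, hG, -⟩ := exists_group X
  obtain ⟨-, ⟨c, hc, X₀, hlow⟩, -⟩ := h d G hG
  by_contra hno
  have h0 : ∀ B : ℝ, N K d G B = 0 := by
    intro B
    unfold N
    have he : {L : IntermediateField K (AlgebraicClosure K) |
        Module.finrank K L = d ∧
        (∃ e : (L →ₐ[K] AlgebraicClosure K) ≃ Fin d, ∀ π : Equiv.Perm (Fin d),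
          π ∈ G ↔ ∃ σ : AlgebraicClosure K ≃ₐ[K] AlgebraicClosure K,
            ∀ φ : L →ₐ[K] AlgebraicClosure K, e (σ.toAlgHom.comp φ) = π (e φ)) ∧
        ∃ h : NumberField L,
          ((|@NumberField.discr L _ h| : ℤ) : ℝ) ≤ B * ((|NumberField.discr K| : ℤ) : ℝ) ^ d} =
        ∅ := by
      rw [Set.eq_empty_iff_forall_notMem]
      rintro L ⟨h1, h2, -⟩
      exact hno ⟨d, G, L, hG, h1, h2⟩
    rw [he, Set.ncard_empty]
  have h1 := hlow (max X₀ 1) (le_max_left _ _)
  rw [h0, Nat.cast_zero, a_eq hG, Real.rpow_one] at h1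
  have h2 : (1 : ℝ) ≤ max X₀ 1 := le_max_right _ _
  have h3 : 0 < c * max X₀ 1 := by positivity
  linarith

theorem real_of_ext {X : Type} [Group X] [Finite X] (K : Type) [Field K] [NumberField K]
    (h : HasExtension K X) : IsRealizable K X := by
  obtain ⟨d, G, L, hG, hL, he⟩ := h
  exact Run7.h16.MQ.gal_of_ext hG L hL he

theorem criterion_of {X Y : Type} [Group X] [Group Y] (h : Data X)
    (hr : ∀ (K : Type) [Field K] [NumberField K], IsRealizable K X ↔ IsRealizable K Y) :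
    Criterion X Y := by
  have hf := h.finite
  intro K _ _
  tfae_have 1 → 3 := fun hY => malle_of_real h K ((hr K).2 ((galois_iff K Y).1 hY))
  tfae_have 3 → 2 := fun hM => ext_of_malle K hM
  tfae_have 2 → 1 := fun hE => (galois_iff K Y).2 ((hr K).1 (real_of_ext K hE))
  tfae_finish

end Run7.h16.MQ.B
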