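import Mathlib
import Pool.Agent.Run7.h16.MQ.Main

/-!
# Counting fields of degree `n` with Galois group `C₂ ≀ X`: the statements and the proofs
-/

set_option autoImplicit false

open Filter
open Nfff32c05 (IsRealizable)
open Pool.Agent.H391R2 (Wr)
open Pool.Agent.N600.UK (Univ)
open Pool.Agent.TH444.TW (Cls)
open Run7.h16.MQ (Data)

namespace Run7.h16.MQ.C

/-- `Γ` is a Galois group over `K`. -/
def IsGaloisGroupOver (K Γ : Type) [Field K] [Group Γ] : Prop :=
  ∃ (L : Type) (_ : Field L) (_ : Algebra K L), IsGalois K L ∧ Nonempty (Γ ≃* (L ≃ₐ[K] L))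

/-- `G ≤ S_d` is, up to a bijection `f` of `{1, ..., d}` with `H × {0, 1}`, the wreath product
`C₂ ≀ H`: it consists of all permutations `π` for which there is `h ∈ H` such that `π` maps the block
`{x} × {0, 1}` to the block `{h x} × {0, 1}`, for all `x ∈ H`. -/
def IsC2Wreath (H : Type) [Group H] {d : ℕ} (G : Subgroup (Equiv.Perm (Fin d))) : Prop :=
  ∃ f : Fin d ≃ H × Bool, ∀ π : Equiv.Perm (Fin d), π ∈ G ↔ ∃ h : H, ∀ i, (f (π i)).1 = h * (f i).1

/-- The fields `L` between `K` and its algebraic closure, of degree `d` over `K`, whose Galois group,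
acting on the embeddings, is `G` (up to numbering), and whose relative discriminant has norm at most
`B` (that is, `|d_L| ≤ B |d_K| ^ d`). -/
def Ext (K : Type) [Field K] [NumberField K] (d : ℕ) (G : Subgroup (Equiv.Perm (Fin d)))
    (B : ℝ) : Set (IntermediateField K (AlgebraicClosure K)) :=
  {L | Module.finrank K L = d ∧
    (∃ e : (L →ₐ[K] AlgebraicClosure K) ≃ Fin d, ∀ π : Equiv.Perm (Fin d),
      π ∈ G ↔ ∃ σ : AlgebraicClosure K ≃ₐ[K] AlgebraicClosure K,
        ∀ φ : L →ₐ[K] AlgebraicClosure K, e (σ.toAlgHom.comp φ) = π (e φ)) ∧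
    ∃ h : NumberField L,
      ((|@NumberField.discr L _ h| : ℤ) : ℝ) ≤ B * ((|NumberField.discr K| : ℤ) : ℝ) ^ d}

/-- `N_{d,K}(B; G)`: the number of these fields. -/
noncomputable def N (K : Type) [Field K] [NumberField K] (d : ℕ)
    (G : Subgroup (Equiv.Perm (Fin d))) (B : ℝ) : ℕ := Set.ncard (Ext K d G B)

/-- The group `C₂ ≀ H` exists, and is transitive. -/
def GroupExists (H : Type) [Group H] : Prop := ∃ (d : ℕ) (G : Subgroup (Equiv.Perm (Fin d))),
  d = 2 * Nat.card H ∧ IsC2Wreath H G ∧ ∀ i j : Fin d, ∃ g ∈ G, g i = j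

/-- `N_{n,K}(B; G)` is finite and `N_{n,K}(B; G) ~ c B` with `c > 0`, for all subgroups `G` of symmetric
groups of the form `C₂ ≀ H`, `H` in its regular action, `n = 2 |H|`. -/
def LinearCount (K : Type) [Field K] [NumberField K] (H : Type) [Group H] : Prop :=
  ∀ (n : ℕ) (G : Subgroup (Equiv.Perm (Fin n))), IsC2Wreath H G →
    (∀ B : ℝ, 0 < B → (Ext K n G B).Finite) ∧
    ∃ c : ℝ, 0 < c ∧ Tendsto (fun B : ℝ => (N K n G B : ℝ) / B) atTop (nhds c)

/-- There are no extensions of `K` with a Galois group of the form `C₂ ≀ H`. -/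
def NoFields (K : Type) [Field K] [NumberField K] (H : Type) [Group H] : Prop :=
  ∀ (n : ℕ) (G : Subgroup (Equiv.Perm (Fin n))), IsC2Wreath H G → ∀ B : ℝ, Ext K n G B = ∅

/-- For every number field `K`: if `Y` is a Galois group over `K` then `N_{n,K}(B; C₂ ≀ X) ~ c B`, `c > 0`;
if `Y` is not a Galois group over `K` then there are no such fields. -/
def Criterion (X Y : Type) [Group X] [Group Y] : Prop :=
  ∀ (K : Type) [Field K] [NumberField K],
    (IsGaloisGroupOver K Y → LinearCount K X) ∧ (¬ IsGaloisGroupOver K Y → NoFields K X)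

/-- `π` is a Frattini cover: it is surjective and its kernel is contained in the Frattini subgroup,
the intersection of the maximal subgroups. -/
def FrattiniCover {Q Y : Type} [Group Q] [Group Y] (π : Q →* Y) : Prop :=
  Function.Surjective π ∧ π.ker ≤ frattini Q

/-- There is a Frattini cover `Q` of `Y` such that `N_{n,K}(B; C₂ ≀ X) ~ c B`, `c > 0`, over the number
fields over which `Q` is a Galois group. -/
def CoverTheorem (X Y : Type) [Group X] [Group Y] : Prop :=
  ∃ (Q : Type) (_ : Group Q) (_ : Finite Q) (π : Q →* Y), FrattiniCover π ∧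
    (∀ (K : Type) [Field K] [NumberField K], IsGaloisGroupOver K Q → LinearCount K X) ∧
    (Group.IsSolvable Y → Group.IsSolvable Q)

/-- All finite solvable groups are Galois groups over `K`: this is the theorem of Shafarevich if `K` is
a number field. -/
def SolvableRealizable (K : Type) [Field K] : Prop :=
  ∀ (Q : Type) [Group Q] [Finite Q], Group.IsSolvable Q → IsGaloisGroupOver K Q

theorem galois_iff (K Γ : Type) [Field K] [Group Γ] : IsGaloisGroupOver K Γ ↔ IsRealizable K Γ :=
  ⟨fun ⟨L, i1, i2, i3, ⟨e⟩⟩ => ⟨⟨⟨L, i1, i2, i3, e⟩⟩⟩,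
    fun ⟨⟨r⟩⟩ => ⟨r.L, r.to_field, r.to_algebra, r.to_isGalois, ⟨r.iso⟩⟩⟩

/-- The group `C₂ ≀ H` exists, and is transitive. -/
theorem exists_group (H : Type) [Group H] [Finite H] : GroupExists H := by
  have hcard : Nat.card (H × Bool) = 2 * Nat.card H := by
    rw [Nat.card_prod, mul_comm]
    simp
  let f : Fin (2 * Nat.card H) ≃ H × Bool := (Finite.equivFinOfCardEq hcard).symm
  let G : Subgroup (Equiv.Perm (Fin (2 * Nat.card H))) :=
    { carrier := {π | ∃ h : H, ∀ i, (f (π i)).1 = h * (f i).1}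
      one_mem' := ⟨1, fun i => by simp⟩
      mul_mem' := by
        rintro π ρ ⟨h, hh⟩ ⟨h', hh'⟩
        refine ⟨h * h', fun i => ?_⟩
        rw [Equiv.Perm.mul_apply, hh, hh', mul_assoc]
      inv_mem' := by
        rintro π ⟨h, hh⟩
        refine ⟨h⁻¹, fun i => ?_⟩
        have h1 := hh (π⁻¹ i)
        rw [show π (π⁻¹ i) = i from π.apply_symm_apply i] at h1
        rw [h1, inv_mul_cancel_left] }
  refine ⟨2 * Nat.card H, G, rfl, ⟨f, fun π => Iff.rfl⟩, fun i j => ?_⟩
  let t : Equiv.Perm (H × Bool) :=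
    (Equiv.mulLeft ((f j).1 * (f i).1⁻¹)).prodCongr (Equiv.swap (f i).2 (f j).2)
  refine ⟨f.trans (t.trans f.symm), ⟨(f j).1 * (f i).1⁻¹, fun x => ?_⟩, ?_⟩
  · simp [t]
  · change f.symm (t (f i)) = j
    rw [Equiv.symm_apply_eq]
    exact Prod.ext (by simp [t]) (by simp [t])

theorem linear_of_real {X : Type} [Group X] (h : Data X) (K : Type) [Field K] [NumberField K]
    (hX : IsRealizable K X) : LinearCount K X := by
  have hf := h.finite
  obtain ⟨U, hU, hc⟩ := h.core
  intro n G hG
  exact Pool.Agent.TH444.ML.asymp Pool.Agent.TH444.ML.rest K X h.two U hU hc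
    ((Run7.h16.MQ.real_iff_gal K X).1 hX) G hG

theorem none_of_not {X : Type} [Group X] [Finite X] (K : Type) [Field K] [NumberField K]
    (hX : ¬ IsRealizable K X) : NoFields K X := by
  intro n G hG B
  rw [Set.eq_empty_iff_forall_notMem]
  rintro L ⟨h1, h2, -⟩
  exact hX (Run7.h16.MQ.gal_of_ext hG L h1 h2)

theorem criterion_of {X Y : Type} [Group X] [Group Y] (h : Data X)
    (hr : ∀ (K : Type) [Field K] [NumberField K], IsRealizable K X ↔ IsRealizable K Y) :
    Criterion X Y := by
  have hf := h.finite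
  intro K _ _
  exact ⟨fun hY => linear_of_real h K ((hr K).2 ((galois_iff K Y).1 hY)),
    fun hY => none_of_not K fun hX => hY ((galois_iff K Y).2 ((hr K).1 hX))⟩

end Run7.h16.MQ.C
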