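import Mathlib
import Pool.Prelude.Def_F_b1b78ff3
import Pool.Agent.N600.UK.Main
import Pool.Agent.N600.NS.Stm
import Pool.Agent.N600.ZQ.T6
import Pool.Agent.TH444.ML.Done
import Pool.Agent.Y793.Ml

/-!
# Extensions by groups with a small core-free subgroup
-/

set_option autoImplicit false

namespace Run7.h16.MQ

open Nfff32c05 Pool.Agent.TH444.ML
open Pool.Agent.H391R2 (Wr)
open Pool.Agent.H391R2.T4 (finite_wr)

/-- A core-free subgroup of `X` from a core-free subgroup of a normal subgroup. -/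
theorem core_ext {X T : Type} [Group X] [Group T] (N : Subgroup X) [N.Normal] (e : N ≃* T)
    (U : Subgroup T) (hU : U.normalCore = ⊥) :
    ∃ V : Subgroup X, V.normalCore = ⊥ ∧ V.index = U.index * N.index := by
  refine ⟨(U.comap e.toMonoidHom).map N.subtype, ?_, ?_⟩
  · rw [eq_bot_iff]
    intro y hy
    obtain ⟨x, hx, rfl⟩ := Subgroup.normalCore_le _ hy
    have h1 : e x ∈ U.normalCore := by
      intro t
      obtain ⟨v, hv, hvw⟩ := hy ((e.symm t : N) : X)
      have h3 : v = e.symm t * x * (e.symm t)⁻¹ := Subtype.ext (by simpa using hvw)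
      have h4 : e v ∈ U := hv
      rw [h3, map_mul, map_mul, map_inv, e.apply_symm_apply] at h4
      exact h4
    rw [hU, Subgroup.mem_bot] at h1
    have h5 : x = 1 := e.injective (by rw [h1, map_one])
    rw [h5, map_one]
    exact Subgroup.one_mem _
  · rw [Subgroup.index_map_of_injective _ N.subtype_injective, Subgroup.range_subtype]
    congr 1
    exact Subgroup.index_comap_of_surjective _ e.surjective

theorem small_ext {X T : Type} [Group X] [Finite X] [Group T] (N : Subgroup X) [N.Normal]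
    (e : N ≃* T) (U : Subgroup T) (hU : U.normalCore = ⊥)
    (hc : 8 * U.index * (U.index * Nat.card (X ⧸ N) + 1) ≤ Nat.card T) :
    2 ≤ Nat.card X ∧
      ∃ V : Subgroup X, V.normalCore = ⊥ ∧ 8 * V.index * (V.index + 1) ≤ Nat.card X := by
  obtain ⟨V, hV, hi⟩ := core_ext N e U hU
  have hq : Nat.card (X ⧸ N) = N.index := rfl
  rw [hq] at hc
  have h1 : Nat.card X = Nat.card T * N.index := by
    rw [← Nat.card_congr e.toEquiv, Subgroup.card_mul_index]
  have h2 : 8 * V.index * (V.index + 1) ≤ Nat.card X := by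
    rw [hi, h1]
    calc 8 * (U.index * N.index) * (U.index * N.index + 1) =
        (8 * U.index * (U.index * N.index + 1)) * N.index := by ring
      _ ≤ _ := Nat.mul_le_mul_right _ hc
  have h3 : 0 < V.index := Nat.pos_of_ne_zero Subgroup.index_ne_zero_of_finite
  refine ⟨?_, V, hV, h2⟩
  nlinarith

theorem real_iff_gal (K H : Type) [Field K] [NumberField K] [Group H] [Finite H] :
    IsRealizable K H ↔ (Gal K (AlgebraicClosure K) H).Nonempty := by
  constructor
  · rintro ⟨⟨r⟩⟩
    exact Pool.Agent.Y793.gal_of_real K (AlgebraicClosure K) H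
      ⟨r.L, r.to_field, r.to_algebra, r.to_isGalois, ⟨r.iso⟩⟩
  · rintro ⟨M, -, hg, ⟨γ⟩⟩
    exact ⟨⟨⟨M, inferInstance, inferInstance, hg, γ.symm⟩⟩⟩

theorem gal_of_ext {K H : Type} [Field K] [NumberField K] [Group H] [Finite H] {n : ℕ}
    {G : Subgroup (Equiv.Perm (Fin n))} (hG : IsC2Wr H G)
    (L : IntermediateField K (AlgebraicClosure K)) (hL : Module.finrank K L = n)
    (h : HasGp K G L) : IsRealizable K H := by
  obtain ⟨M, hM⟩ := (Pool.Agent.TH365.J3099.wrIff K (AlgebraicClosure K) H L).1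
    ⟨by rw [hL, c2wr_n hG], (hasGp_iff K hG L).1 h⟩
  exact (real_iff_gal K H).2 ⟨M, hM.1⟩

theorem core_pi {I : Type} [Fintype I] (T : I → Type) [∀ i, Group (T i)] [∀ i, Finite (T i)]
    (U : ∀ i, Subgroup (T i)) (hU : ∀ i, (U i).normalCore = ⊥) :
    (Subgroup.pi Set.univ U).normalCore = ⊥ ∧
      (Subgroup.pi Set.univ U).index = ∏ i, (U i).index := by
  classical
  constructor
  · rw [eq_bot_iff]
    intro x hx
    rw [Subgroup.mem_bot]
    funext i
    have h1 : x i ∈ (U i).normalCore := by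
      intro t
      have h2 := (Subgroup.mem_pi _).1 (hx (Pi.mulSingle i t)) i (Set.mem_univ i)
      simpa using h2
    rw [hU, Subgroup.mem_bot] at h1
    exact h1
  · have h1 := Subgroup.card_mul_index (Subgroup.pi Set.univ U)
    have h2 : Nat.card (Subgroup.pi Set.univ U) = ∏ i, Nat.card (U i) := by
      rw [← Nat.card_pi]
      exact Nat.card_congr
        { toFun := fun x i => ⟨x.1 i, (Subgroup.mem_pi _).1 x.2 i (Set.mem_univ i)⟩
          invFun := fun y => ⟨fun i => (y i).1, (Subgroup.mem_pi _).2 fun i _ => (y i).2⟩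
          left_inv := fun _ => rfl
          right_inv := fun _ => rfl }
    have h3 : Nat.card (∀ i, T i) = (∏ i, Nat.card (U i)) * ∏ i, (U i).index := by
      rw [Nat.card_pi, ← Finset.prod_mul_distrib]
      exact Finset.prod_congr rfl fun i _ => (Subgroup.card_mul_index (U i)).symm
    rw [h2, h3] at h1
    have h4 : 0 < ∏ i, Nat.card (U i) := Finset.prod_pos fun i _ => Nat.card_pos
    exact Nat.eq_of_mul_eq_mul_left h4 h1

theorem fact_bound {n : ℕ} (hn : 19 ≤ n) : 16 * n ^ 2 * (n - 3).factorial ≤ n.factorial := by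
  obtain ⟨m, rfl⟩ := Nat.exists_eq_add_of_le hn
  have e1 : 19 + m - 3 = 16 + m := by omega
  have e2 : (19 + m).factorial = (19 + m) * ((18 + m) * ((17 + m) * (16 + m).factorial)) := by
    rw [show 19 + m = (18 + m) + 1 by ring, Nat.factorial_succ,
      show 18 + m = (17 + m) + 1 by ring, Nat.factorial_succ,
      show 17 + m = (16 + m) + 1 by ring, Nat.factorial_succ]
  rw [e1, e2]
  have h1 : 16 * (19 + m) ^ 2 ≤ (19 + m) * ((18 + m) * (17 + m)) := by nlinarith
  calc 16 * (19 + m) ^ 2 * (16 + m).factorial ≤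
      ((19 + m) * ((18 + m) * (17 + m))) * (16 + m).factorial := Nat.mul_le_mul_right _ h1
    _ = _ := by ring

theorem wr_size {g n : ℕ} (hn : 19 ≤ n) :
    16 * (g * n) ^ 2 * (g ^ (n - 2) * (n - 3).factorial) ≤ g ^ n * n.factorial := by
  have h1 : g ^ n = g ^ 2 * g ^ (n - 2) := by
    rw [← pow_add]
    congr 1
    omega
  calc 16 * (g * n) ^ 2 * (g ^ (n - 2) * (n - 3).factorial) =
      g ^ 2 * g ^ (n - 2) * (16 * n ^ 2 * (n - 3).factorial) := by ring
    _ ≤ g ^ 2 * g ^ (n - 2) * n.factorial := Nat.mul_le_mul_left _ (fact_bound hn)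
    _ = _ := by rw [h1]

theorem card_wr (A : Type) [Group A] [Finite A] (n : ℕ) :
    Nat.card (Wr A n) = Nat.card A ^ n * n.factorial := wr_card A n

theorem big (a : ℕ) (ha : 0 < a) : 19 ≤ ((3 * a + 2).factorial) ^ 3 := by
  have h1 : (5 : ℕ).factorial ≤ (3 * a + 2).factorial := Nat.factorial_le (by omega)
  have h2 : (5 : ℕ).factorial = 120 := rfl
  calc 19 ≤ 120 ^ 1 := by norm_num
    _ ≤ 120 ^ 3 := Nat.pow_le_pow_right (by norm_num) (by norm_num)
    _ ≤ _ := Nat.pow_le_pow_left (by omega) 3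

/-- The product of wreath products has a small core-free subgroup. -/
theorem prod_small {I : Type} [Fintype I] [Nonempty I] (G : I → Type) [∀ i, Group (G i)]
    [∀ i, Finite (G i)] (n : I → ℕ) (hn : ∀ i, 19 ≤ n i) (q : ℕ) (hq0 : 0 < q)
    (hq : q ≤ ∏ i, (Nat.card (G i) ^ (n i - 2) * (n i - 3).factorial)) :
    ∃ U : Subgroup (∀ i, Wr (G i) (n i)), U.normalCore = ⊥ ∧
      8 * U.index * (U.index * q + 1) ≤ Nat.card (∀ i, Wr (G i) (n i)) := by
  classical
  have hf : ∀ i, Finite (Wr (G i) (n i)) := fun i => finite_wr (G i) (n i)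
  choose U hU hi using fun i => wr_core (G i) (n i) (by have := hn i; omega)
  obtain ⟨h1, h2⟩ := core_pi (fun i => Wr (G i) (n i)) U hU
  refine ⟨_, h1, ?_⟩
  rw [h2]
  have h3 : ∏ i, (U i).index = ∏ i, (Nat.card (G i) * n i) := Finset.prod_congr rfl fun i _ => hi i
  rw [h3, Nat.card_pi]
  have h4 : 0 < ∏ i, (Nat.card (G i) * n i) := Finset.prod_pos fun i _ => by
    have := hn i
    have h5 : 0 < Nat.card (G i) := Nat.card_pos
    have : 0 < n i := by omega
    positivity
  set u := ∏ i, (Nat.card (G i) * n i) with hu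
  have h6 : 8 * u * (u * q + 1) ≤ 16 * u ^ 2 * q := by
    have : 1 ≤ u * q := Nat.mul_pos h4 hq0
    calc 8 * u * (u * q + 1) ≤ 8 * u * (u * q + u * q) := by gcongr
      _ = 16 * u ^ 2 * q := by ring
  refine h6.trans ?_
  have h7 : 16 ≤ ∏ _i : I, 16 := by
    rw [Finset.prod_const]
    exact Nat.le_self_pow (Finset.card_pos.2 ⟨Classical.arbitrary I, Finset.mem_univ _⟩).ne' 16
  calc 16 * u ^ 2 * q ≤ (∏ _i : I, 16) * u ^ 2 *
        ∏ i, (Nat.card (G i) ^ (n i - 2) * (n i - 3).factorial) := by gcongr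
    _ = ∏ i, (16 * (Nat.card (G i) * n i) ^ 2 *
        (Nat.card (G i) ^ (n i - 2) * (n i - 3).factorial)) := by
      rw [hu, ← Finset.prod_pow, ← Finset.prod_mul_distrib, ← Finset.prod_mul_distrib]
    _ ≤ ∏ i, Nat.card (Wr (G i) (n i)) := by
      refine Finset.prod_le_prod' fun i _ => ?_
      rw [card_wr]
      exact wr_size (hn i)

end Run7.h16.MQ
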